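import Pool.Agent.X136.GT.Ana1
import Pool.Agent.X136.GT.Inf

set_option autoImplicit false

/-!
# The critical probability of bootstrap percolation on Galton-Watson trees with given mean

We prove the conjectured lower bound `f_r^{GW}(b) ≥ c_r exp (- b / (r - 1))` with the constant
`c_r = exp (-1)`.  This answers Q1 of MP_12274d_pr affirmatively.

Definitions from `Pool.Agent.X136.GT.Defs`: `InTree Z u` says that the word `u` is a vertex of the
tree in which the vertex `v` has `Z v` children (the children of `v` are the words `i :: v` with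
`i < Z v`, the root is the empty word), `tree Z` is this tree as a graph, `GW ν` is the law under
which all the `Z v` are independent with law `ν`, `Percolates G r c` is `r`-neighbour bootstrap
percolation started from `{v | c v = true}`, `bern V p` is the product Bernoulli law, and `pc G r`
is the critical probability.
-/

namespace Pool.Agent.Results.MP_12274d_pr.ExpLower

open MeasureTheory ProbabilityTheory Pool.Agent.X136.GT

/-- `f_r^{GW}(b)`: the infimum of the almost sure values of `p_c(T_ξ, r)` over the offspring laws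
`ν` with `ν 0 = 0` and mean `b`. -/
noncomputable def fGW (r : ℕ) (b : ℝ) : ℝ :=
  sInf {x : ℝ | ∃ ν : PMF ℕ, ν 0 = 0 ∧ ∑' k : ℕ, ν k * (k : ENNReal) = ENNReal.ofReal b ∧
    ∀ᵐ Z ∂GW ν, pc (tree Z) r = x}

/-- For every `r ≥ 2` there is `c > 0` such that `f_r^{GW}(b) ≥ c exp (- b / (r - 1))` for all
real `b ≥ r`; moreover for every offspring law with `ν 0 = 0` and mean `b`, the critical
probability of almost every tree satisfies this bound. -/
theorem result : ∀ r : ℕ, 2 ≤ r → ∃ c : ℝ, 0 < c ∧ ∀ b : ℝ, (r : ℝ) ≤ b →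
    c * Real.exp (-b / ((r : ℝ) - 1)) ≤ fGW r b ∧
    ∀ ν : PMF ℕ, ν 0 = 0 → ∑' k : ℕ, ν k * (k : ENNReal) = ENNReal.ofReal b →
      ∀ᵐ Z ∂GW ν, c * Real.exp (-b / ((r : ℝ) - 1)) ≤ pc (tree Z) r := by
  intro r hr
  obtain ⟨s, rfl⟩ : ∃ s, r = s + 2 := ⟨r - 2, by omega⟩
  have hcast : ((s + 2 : ℕ) : ℝ) - 1 = ((s + 1 : ℕ) : ℝ) := by push_cast; ring
  refine ⟨Real.exp (-1), Real.exp_pos _, fun b hb => ?_⟩
  have hb1 : 1 ≤ b := by
    push_cast at hb
    have : (0 : ℝ) ≤ s := Nat.cast_nonneg s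
    linarith
  have key : ∀ ν : PMF ℕ, ν 0 = 0 → ∑' k : ℕ, ν k * (k : ENNReal) = ENNReal.ofReal b →
      ∀ᵐ Z ∂GW ν, Real.exp (-1) * Real.exp (-b / (((s + 2 : ℕ) : ℝ) - 1)) ≤
        pc (tree Z) (s + 2) := by
    intro ν h0 hmean
    rw [hcast]
    filter_upwards [pc_ge_exp ν s (by linarith) hmean, infinite_of_zero ν h0] with Z h1 h2
    exact h1 h2
  refine ⟨?_, key⟩
  obtain ⟨ν, h0, h1, hmean⟩ := exists_law hb1
  refine le_csInf ⟨1, ν, h0, hmean, pc_one ν hr h0 h1⟩ ?_
  rintro x ⟨ν', h0', hmean', hx⟩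
  have hp : IsProbabilityMeasure (GW ν') := by unfold GW; infer_instance
  have h3 := (key ν' h0' hmean').and hx
  obtain ⟨Z, hZ1, hZ2⟩ := h3.exists
  rw [← hZ2]
  exact hZ1

end Pool.Agent.Results.MP_12274d_pr.ExpLower
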